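import Pool.Agent.TH197.Sym.Gen

/-!
# Upper bounds for pattern-free sets with many symmetries
-/

set_option autoImplicit false
set_option linter.unusedSectionVars false

namespace Pool.Agent.TH197.Sym

open Finset Equiv
open Pool.Agent.TH197.SymAP (few mem_few card_few_le exists_B)

variable {X Q : Type} [AddCommGroup X] [Fintype X] [DecidableEq X] [Fintype Q] [DecidableEq Q]
  {k : ℕ} {F : Fin k → Q → X} {nt : Q → Prop}

/-- the upper bound for symmetric sets -/
theorem upper (i₀ : Fin k) (τ : X → Q) (hτ : ∀ i v, F i (τ v) = v) (h : ℕ) (h1 : 1 ≤ h)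
    (hG : h ≤ Fintype.card X) (hmax : ∀ V : Finset X, ¬ Balanced F nt V → V.card ≤ h) :
    ∃ C : ℕ, ∀ (n : ℕ) (A : Finset (Fin n → X)), 1 ≤ n → Free F nt A → Symm A →
      A.card ≤ C * n ^ C * h ^ n := by
  classical
  obtain ⟨K, hK⟩ := letters_all (nt := nt) i₀ τ hτ h hG hmax
  set g := Fintype.card X with hg
  refine ⟨2 ^ g * g ^ (g * K) + g * K, fun n A hn hA hS => ?_⟩
  have hsub : A ⊆ few (Fin n) X K h := by
    intro u hu
    rw [mem_few]
    exact hK n A univ hA (fun i _ j _ x hx => hS (swap i j) x hx) u hu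
  have h2 := card_few_le (G := X) (P := Fin n) (K := K) (h := h) (by rwa [Fintype.card_fin]) h1
  rw [Fintype.card_fin, ← hg] at h2
  have h3 : n ^ (g * K) ≤ n ^ (2 ^ g * g ^ (g * K) + g * K) :=
    Nat.pow_le_pow_right hn (Nat.le_add_left _ _)
  calc A.card ≤ 2 ^ g * ((n * g) ^ (g * K) * h ^ n) := (Finset.card_le_card hsub).trans h2
    _ = (2 ^ g * g ^ (g * K)) * n ^ (g * K) * h ^ n := by rw [mul_pow]; ring
    _ ≤ _ := Nat.mul_le_mul_right _ (Nat.mul_le_mul (Nat.le_add_right _ _) h3)

/-- If `A` is invariant under the permutations which preserve the classes of `c`, then the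
coordinates in classes with at least `T` elements contribute a factor at most `h + ε` each. -/
theorem classes (i₀ : Fin k) (τ : X → Q) (hτ : ∀ i v, F i (τ v) = v) (h : ℕ) (h1 : 1 ≤ h)
    (hG : h ≤ Fintype.card X) (hmax : ∀ V : Finset X, ¬ Balanced F nt V → V.card ≤ h)
    {ε : ℝ} (hε : 0 < ε) :
    ∃ T : ℕ, ∀ (n : ℕ) (Y : Type) [Fintype Y] [DecidableEq Y] (c : Fin n → Y)
      (A : Finset (Fin n → X)), Free F nt A →
      (∀ i j, c i = c j → ∀ x ∈ A, x ∘ swap i j ∈ A) → ∀ m : ℕ,
      m = (univ.filter fun i => T ≤ (univ.filter fun j => c j = c i).card).card →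
      (A.card : ℝ) ≤ ((h : ℝ) + ε) ^ m * (Fintype.card X : ℝ) ^ (n - m) := by
  classical
  obtain ⟨K, hK⟩ := letters_all (nt := nt) i₀ τ hτ h hG hmax
  set g := Fintype.card X with hg
  have hhR : (1 : ℝ) ≤ h := by exact_mod_cast h1
  -- the constants
  set t : ℝ := min 1 (ε / (3 * h)) with htdef
  have ht : 0 < t := lt_min one_pos (by positivity)
  have ht1 : t ≤ 1 := min_le_left _ _
  have ht2 : h * (3 * t) ≤ ε := by
    have h2 : t ≤ ε / (3 * h) := min_le_right _ _
    rw [le_div_iff₀ (by positivity)] at h2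
    linarith
  obtain ⟨B, hB1, _, hB⟩ := exists_B g K 0 ht
  obtain ⟨T, hT⟩ := pow_unbounded_of_one_lt B (show 1 < 1 + t by linarith)
  refine ⟨T + 1, fun n Y _ _ c A hA hc m hm => ?_⟩
  set N : Y → ℕ := fun y => (univ.filter fun j => c j = y).card with hN
  have hNcard : ∀ y, Fintype.card {i // c i = y} = N y := fun y => by
    rw [Fintype.card_subtype]
  let S : ∀ y : Y, Finset ({i // c i = y} → X) := fun y =>
    if T + 1 ≤ N y then few {i // c i = y} X K h else univ
  have hScard : ∀ y, ((S y).card : ℝ) ≤ ((h : ℝ) + ε) ^ (if T + 1 ≤ N y then N y else 0) *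
      (g : ℝ) ^ (if T + 1 ≤ N y then 0 else N y) := by
    intro y
    by_cases hy : T + 1 ≤ N y
    · have e1 : S y = few {i // c i = y} X K h := if_pos hy
      rw [e1, if_pos hy, if_pos hy, pow_zero, mul_one]
      have h2 := card_few_le (G := X) (P := {i // c i = y}) (K := K) (h := h)
        (by rw [hNcard]; omega) h1
      rw [hNcard, ← hg] at h2
      have h3 : ((few {i // c i = y} X K h).card : ℝ) ≤
          2 ^ g * (((N y : ℝ) * g) ^ (g * K) * (h : ℝ) ^ N y) := by exact_mod_cast h2
      refine h3.trans ?_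
      rw [← mul_assoc]
      calc (2 : ℝ) ^ g * ((N y : ℝ) * g) ^ (g * K) * (h : ℝ) ^ N y
          ≤ B * (1 + t) ^ N y * (h : ℝ) ^ N y :=
            mul_le_mul_of_nonneg_right (hB _) (by positivity)
        _ ≤ (1 + t) ^ N y * (1 + t) ^ N y * (h : ℝ) ^ N y := by
            apply mul_le_mul_of_nonneg_right _ (by positivity)
            apply mul_le_mul_of_nonneg_right _ (by positivity)
            exact hT.le.trans (pow_le_pow_right₀ (by linarith) (by omega))
        _ = ((h : ℝ) * ((1 + t) * (1 + t))) ^ N y := by rw [mul_pow, mul_pow]; ring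
        _ ≤ ((h : ℝ) + ε) ^ N y := by
          apply pow_le_pow_left₀ (by positivity)
          have h2 : (1 + t) * (1 + t) ≤ 1 + 3 * t := by nlinarith
          calc (h : ℝ) * ((1 + t) * (1 + t)) ≤ h * (1 + 3 * t) :=
                mul_le_mul_of_nonneg_left h2 (by linarith)
            _ = h + h * (3 * t) := by ring
            _ ≤ h + ε := by linarith
    · have e1 : S y = univ := if_neg hy
      rw [e1, if_neg hy, if_neg hy, pow_zero, one_mul, Finset.card_univ, Fintype.card_fun,
        hNcard, ← hg]
      push_cast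
      exact le_refl _
  have hle : A.card ≤ (Fintype.piFinset S).card := by
    apply Finset.card_le_card_of_injOn (fun u y i => u i.1)
    · intro u hu
      rw [Finset.mem_coe, Fintype.mem_piFinset]
      intro y
      by_cases hy : T + 1 ≤ N y
      · have e1 : S y = few {i // c i = y} X K h := if_pos hy
        rw [e1, mem_few]
        obtain ⟨V, hV, hVK⟩ := hK n A (univ.filter fun i => c i = y) hA (by
          intro i hi j hj
          rw [Finset.mem_filter] at hi hj
          exact hc i j (by rw [hi.2, hj.2])) u hu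
        refine ⟨V, hV, fun v hv => lt_of_le_of_lt ?_ (hVK v hv)⟩
        apply Finset.card_le_card_of_injOn (fun i => i.1)
        · intro i hi
          have h2 := (Finset.mem_filter.1 (Finset.mem_coe.1 hi)).2
          rw [Finset.mem_coe, Finset.mem_filter, Finset.mem_filter]
          exact ⟨⟨mem_univ _, i.2⟩, h2⟩
        · intro i _ j _ hij
          exact Subtype.ext hij
      · have e1 : S y = univ := if_neg hy
        rw [e1]
        exact mem_univ _
    · intro u _ u' _ huu
      funext i
      exact congrFun (congrFun huu (c i)) ⟨i, rfl⟩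
  have hsum : ∑ y, N y = n := by
    have h2 : ∑ y, Fintype.card {i // c i = y} = n := by
      rw [← Fintype.card_sigma, Fintype.card_congr (Equiv.sigmaFiberEquiv c), Fintype.card_fin]
    rw [← h2]
    exact Finset.sum_congr rfl (fun y _ => (hNcard y).symm)
  have hsum1 : ∑ y, (if T + 1 ≤ N y then N y else 0) = m := by
    rw [hm]
    have h2 : (univ.filter fun i => T + 1 ≤ (univ.filter fun j => c j = c i).card).card =
        ∑ y, ((univ.filter fun i => T + 1 ≤ (univ.filter fun j => c j = c i).card).filter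
          fun i => c i = y).card := Finset.card_eq_sum_card_fiberwise (fun i _ => by simp)
    rw [h2]
    apply Finset.sum_congr rfl
    intro y _
    rw [Finset.filter_filter]
    split_ifs with hy
    · show (univ.filter fun j => c j = y).card = _
      congr 1
      ext j
      simp only [Finset.mem_filter, Finset.mem_univ, true_and]
      constructor
      · rintro rfl
        exact ⟨hy, rfl⟩
      · exact fun h => h.2
    · symm
      rw [Finset.card_eq_zero, Finset.filter_eq_empty_iff]
      rintro j _ ⟨a1, a2⟩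
      subst a2
      exact hy a1
  have hsum2 : ∑ y, (if T + 1 ≤ N y then 0 else N y) = n - m := by
    have h2 : ∑ y, (if T + 1 ≤ N y then N y else 0) + ∑ y, (if T + 1 ≤ N y then 0 else N y) =
        n := by
      rw [← Finset.sum_add_distrib, ← hsum]
      apply Finset.sum_congr rfl
      intro y _
      split_ifs <;> simp
    omega
  calc (A.card : ℝ) ≤ ((Fintype.piFinset S).card : ℝ) := by exact_mod_cast hle
    _ = ∏ y, ((S y).card : ℝ) := by rw [Fintype.card_piFinset]; push_cast; rfl
    _ ≤ ∏ y, (((h : ℝ) + ε) ^ (if T + 1 ≤ N y then N y else 0) *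
      (g : ℝ) ^ (if T + 1 ≤ N y then 0 else N y)) :=
      Finset.prod_le_prod (fun y _ => Nat.cast_nonneg _) (fun y _ => hScard y)
    _ = _ := by
      rw [Finset.prod_mul_distrib, Finset.prod_pow_eq_pow_sum, Finset.prod_pow_eq_pow_sum,
        hsum1, hsum2]

open Pool.Agent.W967.SK in
/-- Pattern-free sets whose stabilizer in `S_n` has small index. -/
theorem large (i₀ : Fin k) (τ : X → Q) (hτ : ∀ i v, F i (τ v) = v) (h : ℕ) (h1 : 1 ≤ h)
    (hG : h ≤ Fintype.card X) (hmax : ∀ V : Finset X, ¬ Balanced F nt V → V.card ≤ h)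
    {ε : ℝ} (hε : 0 < ε) :
    ∃ δ : ℝ, 0 < δ ∧ ∃ n₀ : ℕ, ∀ n : ℕ, n₀ ≤ n →
      ∀ (A : Finset (Fin n → X)) (H : Subgroup (Perm (Fin n))),
      Free F nt A → (∀ σ ∈ H, ∀ x ∈ A, (fun i => x (σ i)) ∈ A) →
      (H.index : ℝ) ≤ (n.factorial : ℝ) ^ δ → (A.card : ℝ) ≤ ((h : ℝ) + ε) ^ n := by
  classical
  obtain ⟨K, hK⟩ := letters_all (nt := nt) i₀ τ hτ h hG hmax
  set g := Fintype.card X with hg
  have hhR : (1 : ℝ) ≤ h := by exact_mod_cast h1
  -- the constants
  set t : ℝ := min 1 (ε / (3 * h)) with htdef
  have ht : 0 < t := lt_min one_pos (by positivity)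
  have ht1 : t ≤ 1 := min_le_left _ _
  have ht2 : h * (3 * t) ≤ ε := by
    have h2 : t ≤ ε / (3 * h) := min_le_right _ _
    rw [le_div_iff₀ (by positivity)] at h2
    linarith
  set T : ℕ := 5 + g with hT
  obtain ⟨B, hB1, hBT, hB⟩ := exists_B g K T ht
  have hlog : 0 < Real.log (1 + t) := Real.log_pos (by linarith)
  have hlogB : 0 ≤ Real.log B := Real.log_nonneg hB1
  set η : ℝ := Real.log (1 + t) / (Real.log B + 1) with hη
  have hη0 : 0 < η := by positivity
  have hηB : η * Real.log B ≤ Real.log (1 + t) := by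
    rw [hη, div_mul_eq_mul_div, div_le_iff₀ (by positivity)]
    nlinarith
  obtain ⟨δ, hδ, n₀, hn₀⟩ := few_classes' hη0
  refine ⟨δ, hδ, n₀, fun n hn A H hA hH hind => ?_⟩
  set a : (Fin n → X) → ℚ := fun x => if x ∈ A then 1 else 0 with ha
  have hHL : H ≤ Line a := by
    intro σ hσ
    rw [mem_Line]
    refine ⟨1, one_ne_zero, fun x => ?_⟩
    rw [one_mul]
    have e1 : x ∘ σ ∈ A ↔ x ∈ A := by
      constructor
      · intro hx
        have h2 := hH _ (H.inv_mem hσ) _ hx
        have h3 : (fun i => (x ∘ σ) (σ⁻¹ i)) = x := by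
          funext i
          simp
        rwa [h3] at h2
      · intro hx
        exact hH σ hσ x hx
    simp only [ha, e1]
  have hidx : (Line a).index ≤ H.index := Nat.le_of_dvd
    (Nat.pos_of_ne_zero Subgroup.FiniteIndex.index_ne_zero) (Subgroup.index_dvd_of_le hHL)
  have hcls := hn₀ n hn (Fintype.card (Quotient (cls (Line a)))) (by
    refine le_trans ?_ hind
    exact_mod_cast (card_cls (Line a)).trans hidx)
  -- the classes
  let cl : Fin n → Quotient (cls (Line a)) := fun i => Quotient.mk _ i
  have hcl : ∀ p i, cl p = cl i ↔ rel (Line a) p i := fun p i => Quotient.eq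
  have hswap : ∀ y, T < Fintype.card {i // cl i = y} →
      ∀ i ∈ (univ.filter fun i => cl i = y), ∀ j ∈ (univ.filter fun i => cl i = y), ∀ x ∈ A,
        x ∘ swap i j ∈ A := by
    intro y hy i hi j hj x hx
    rw [Finset.mem_filter] at hi hj
    have hi' : rel (Line a) y.out i := by
      rw [← hcl, hi.2]
      exact Quotient.out_eq y
    have hj' : rel (Line a) y.out j := by
      rw [← hcl, hj.2]
      exact Quotient.out_eq y
    have hset : (univ.filter fun q => rel (Line a) y.out q) = univ.filter fun i => cl i = y := by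
      ext q
      rw [Finset.mem_filter, Finset.mem_filter, ← hcl]
      have : cl y.out = y := Quotient.out_eq y
      rw [this]
      simp [eq_comm]
    have hc : (univ.filter fun q => rel (Line a) y.out q).card = Fintype.card {i // cl i = y} := by
      rw [hset, Fintype.card_subtype]
    have h2 : swap i j ∈ Exact a :=
      swap_mem_exact (by rw [hc]; omega) (by rw [hc]; omega) hi' hj'
    have h3 := h2 x
    simp only [ha] at h3
    by_contra hcon
    rw [if_neg hcon, if_pos hx] at h3
    exact zero_ne_one h3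
  let S : ∀ y : Quotient (cls (Line a)), Finset ({i // cl i = y} → X) := fun y =>
    if T < Fintype.card {i // cl i = y} then few {i // cl i = y} X K h else univ
  have hScard : ∀ y, ((S y).card : ℝ) ≤ B * ((h : ℝ) * (1 + t)) ^ Fintype.card {i // cl i = y} := by
    intro y
    set m := Fintype.card {i // cl i = y} with hm
    have hc1 : (1 : ℝ) ≤ (h : ℝ) * (1 + t) := by nlinarith
    by_cases hy : T < m
    · have e1 : S y = few {i // cl i = y} X K h := if_pos hy
      rw [e1]
      have h2 := card_few_le (G := X) (P := {i // cl i = y}) (K := K) (h := h) (by omega) h1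
      rw [← hm, ← hg] at h2
      have h3 : ((few {i // cl i = y} X K h).card : ℝ) ≤
          2 ^ g * (((m : ℝ) * g) ^ (g * K) * (h : ℝ) ^ m) := by exact_mod_cast h2
      refine h3.trans ?_
      rw [← mul_assoc]
      calc (2 : ℝ) ^ g * ((m : ℝ) * g) ^ (g * K) * (h : ℝ) ^ m ≤ B * (1 + t) ^ m * (h : ℝ) ^ m :=
            mul_le_mul_of_nonneg_right (hB m) (by positivity)
        _ = B * ((h : ℝ) * (1 + t)) ^ m := by rw [mul_pow]; ring
    · have e1 : S y = univ := if_neg hy
      rw [e1, Finset.card_univ, Fintype.card_fun, ← hm, ← hg]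
      have hg1 : 1 ≤ g := Fintype.card_pos
      have h2 : ((g ^ m : ℕ) : ℝ) ≤ (g : ℝ) ^ T := by
        exact_mod_cast Nat.pow_le_pow_right hg1 (by omega)
      calc ((g ^ m : ℕ) : ℝ) ≤ B := h2.trans hBT
        _ = B * 1 := (mul_one B).symm
        _ ≤ B * ((h : ℝ) * (1 + t)) ^ m :=
          mul_le_mul_of_nonneg_left (one_le_pow₀ hc1) (by linarith)
  have hle : A.card ≤ (Fintype.piFinset S).card := by
    apply Finset.card_le_card_of_injOn (fun u y i => u i.1)
    · intro u hu
      rw [Finset.mem_coe, Fintype.mem_piFinset]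
      intro y
      by_cases hy : T < Fintype.card {i // cl i = y}
      · have e1 : S y = few {i // cl i = y} X K h := if_pos hy
        rw [e1, mem_few]
        obtain ⟨V, hV, hVK⟩ := hK n A (univ.filter fun i => cl i = y) hA (hswap y hy) u hu
        refine ⟨V, hV, fun v hv => lt_of_le_of_lt ?_ (hVK v hv)⟩
        apply Finset.card_le_card_of_injOn (fun i => i.1)
        · intro i hi
          have h2 := (Finset.mem_filter.1 (Finset.mem_coe.1 hi)).2
          rw [Finset.mem_coe, Finset.mem_filter, Finset.mem_filter]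
          exact ⟨⟨mem_univ _, i.2⟩, h2⟩
        · intro i _ j _ hij
          exact Subtype.ext hij
      · have e1 : S y = univ := if_neg hy
        rw [e1]
        exact mem_univ _
    · intro u _ u' _ huu
      funext i
      exact congrFun (congrFun huu (cl i)) ⟨i, rfl⟩
  have hsum : ∑ y, Fintype.card {i // cl i = y} = n := by
    rw [← Fintype.card_sigma, Fintype.card_congr (Equiv.sigmaFiberEquiv cl), Fintype.card_fin]
  have hprod : (A.card : ℝ) ≤ B ^ Fintype.card (Quotient (cls (Line a))) *
      ((h : ℝ) * (1 + t)) ^ n := by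
    calc (A.card : ℝ) ≤ ((Fintype.piFinset S).card : ℝ) := by exact_mod_cast hle
      _ = ∏ y, ((S y).card : ℝ) := by rw [Fintype.card_piFinset]; push_cast; rfl
      _ ≤ ∏ y, B * ((h : ℝ) * (1 + t)) ^ Fintype.card {i // cl i = y} :=
        Finset.prod_le_prod (fun y _ => Nat.cast_nonneg _) (fun y _ => hScard y)
      _ = _ := by
        rw [Finset.prod_mul_distrib, Finset.prod_const, Finset.card_univ,
          Finset.prod_pow_eq_pow_sum, hsum]
  have hBpow : B ^ Fintype.card (Quotient (cls (Line a))) ≤ (1 + t) ^ n := by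
    have hB0 : 0 < B := by linarith
    rw [← Real.exp_log (pow_pos hB0 _), ← Real.exp_log (show 0 < (1 + t) ^ n by positivity),
      Real.exp_le_exp, Real.log_pow, Real.log_pow]
    calc (Fintype.card (Quotient (cls (Line a))) : ℝ) * Real.log B ≤ (η * n) * Real.log B :=
          mul_le_mul_of_nonneg_right hcls hlogB
      _ = n * (η * Real.log B) := by ring
      _ ≤ n * Real.log (1 + t) := mul_le_mul_of_nonneg_left hηB (Nat.cast_nonneg _)
  calc (A.card : ℝ) ≤ (1 + t) ^ n * ((h : ℝ) * (1 + t)) ^ n :=
        hprod.trans (mul_le_mul_of_nonneg_right hBpow (by positivity))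
    _ = ((h : ℝ) * ((1 + t) * (1 + t))) ^ n := by rw [← mul_pow]; ring
    _ ≤ ((h : ℝ) + ε) ^ n := by
      apply pow_le_pow_left₀ (by positivity)
      have h2 : (1 + t) * (1 + t) ≤ 1 + 3 * t := by nlinarith
      calc (h : ℝ) * ((1 + t) * (1 + t)) ≤ h * (1 + 3 * t) :=
            mul_le_mul_of_nonneg_left h2 (by linarith)
        _ = h + h * (3 * t) := by ring
        _ ≤ h + ε := by linarith

end Pool.Agent.TH197.Sym
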