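import Pool.Agent.TH197.SymAP.Large

/-!
# Symmetric sets of words without a pattern, and balanced weights

`X` is a finite alphabet and `Q` a finite set of patterns; the pattern `q` has the `k` terms
`F i q ∈ X`. Some of the patterns are nontrivial (`nt`). We look at the sets of words which contain
no `k` words that form a pattern in every coordinate, a nontrivial one in some coordinate. This
generalises `Pool.Agent.TH197.SymAP.Basic`, `Large` and `Local`.
-/

set_option autoImplicit false
set_option linter.unusedSectionVars false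

namespace Pool.Agent.TH197.Sym

open Finset Equiv

variable {X Q : Type} [Fintype X] [DecidableEq X] [Fintype Q] [DecidableEq Q] {k : ℕ}

/-- a nonzero weight on the nontrivial patterns in `S` whose `k` marginals agree -/
def Balanced (F : Fin k → Q → X) (nt : Q → Prop) (S : Finset X) : Prop :=
  ∃ w : Q → ℕ, (∃ q, w q ≠ 0) ∧ (∀ q, w q ≠ 0 → nt q ∧ ∀ i, F i q ∈ S) ∧
    ∀ i j : Fin k, ∀ s : X, (∑ q : Q, if F i q = s then w q else 0) =
      ∑ q : Q, if F j q = s then w q else 0

/-- no pattern with a nontrivial coordinate -/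
def Free (F : Fin k → Q → X) (nt : Q → Prop) {n : ℕ} (A : Finset (Fin n → X)) : Prop :=
  ∀ q : Fin n → Q, (∀ i, (fun c => F i (q c)) ∈ A) → ∀ c, ¬ nt (q c)

/-- invariant under permutations of coordinates -/
def Symm {n : ℕ} (A : Finset (Fin n → X)) : Prop :=
  ∀ (σ : Perm (Fin n)), ∀ x ∈ A, (fun i => x (σ i)) ∈ A

variable {F : Fin k → Q → X} {nt : Q → Prop}

theorem letters (i₀ : Fin k) (τ : X → Q) (hτ : ∀ i v, F i (τ v) = v) (V : Finset X)
    (hV : Balanced F nt V) : ∃ K : ℕ, ∀ (n : ℕ)
    (A : Finset (Fin n → X)), Free F nt A → Symm A → ∀ u ∈ A, ∃ v ∈ V,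
      (univ.filter (fun i => u i = v)).card < K := by
  classical
  obtain ⟨w, ⟨q₀, hq₀⟩, hsup, hbal⟩ := hV
  refine ⟨∑ q, w q, ?_⟩
  intro n A hA hS u hu
  by_contra hcon
  push Not at hcon
  let I := Σ q : Q, Fin (w q)
  let f : Fin k → I → X := fun j i => F j i.1
  have hw0 : ∀ i : I, w i.1 ≠ 0 := fun i h0 => by
    have := i.2.2
    omega
  have cardF : ∀ j s, Fintype.card {i // f j i = s} =
      ∑ q : Q, if F j q = s then w q else 0 := by
    intro j s
    rw [Fintype.card_subtype, Finset.card_filter, ← Finset.univ_sigma_univ, Finset.sum_sigma]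
    apply Finset.sum_congr rfl
    intro q _
    simp only [f]
    split_ifs <;> simp
  have hperm : ∀ j : Fin k, ∃ σ : Perm I, ∀ i, f j i = f i₀ (σ i) := by
    intro j
    apply H287R3.RA.AP.exists_perm
    intro s
    rw [cardF, cardF, hbal j i₀]
  -- embedding
  have hemb : ∀ v : X, Nonempty ({i // f i₀ i = v} ↪ {c : Fin n // u c = v}) := by
    intro v
    rw [Function.Embedding.nonempty_iff_card_le]
    by_cases hv : v ∈ V
    · rw [cardF, Fintype.card_subtype]
      refine le_trans ?_ (hcon v hv)
      apply Finset.sum_le_sum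
      intro q _
      split_ifs
      · exact le_refl _
      · exact Nat.zero_le _
    · have : IsEmpty {i // f i₀ i = v} := by
        refine ⟨fun i => hv ?_⟩
        have h1 := (hsup i.1.1 (hw0 i.1)).2 i₀
        have h2 : F i₀ i.1.1 = v := i.2
        rwa [h2] at h1
      rw [Fintype.card_eq_zero]
      exact Nat.zero_le _
  have ev : ∀ v : X, {i // f i₀ i = v} ↪ {c : Fin n // u c = v} := fun v => (hemb v).some
  let e₀ : I → Fin n := fun i => (ev (f i₀ i) ⟨i, rfl⟩ : Fin n)
  have he₀ : ∀ (i : I) (v : X) (h : f i₀ i = v), e₀ i = (ev v ⟨i, h⟩ : Fin n) := by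
    intro i v h
    subst h
    rfl
  have hue : ∀ i, u (e₀ i) = f i₀ i := fun i => (ev (f i₀ i) ⟨i, rfl⟩).2
  have hinj : Function.Injective e₀ := by
    intro i j hij
    have h1 : f i₀ i = f i₀ j := by rw [← hue i, ← hue j, hij]
    have h2 := he₀ i (f i₀ j) h1
    have h3 := he₀ j (f i₀ j) rfl
    rw [h2, h3] at hij
    have h4 := (ev (f i₀ j)).injective (Subtype.ext hij)
    exact congrArg Subtype.val h4
  let e : I ↪ Fin n := ⟨e₀, hinj⟩
  let y : Fin n → Q := fun c => if h : ∃ i, e i = c then (h.choose).1 else τ (u c)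
  have hye : ∀ i, y (e i) = i.1 := by
    intro i
    have hex : ∃ i', e i' = e i := ⟨i, rfl⟩
    simp only [y]
    rw [dif_pos hex, e.injective hex.choose_spec]
  have hmem : ∀ j : Fin k, (fun c => F j (y c)) ∈ A := by
    intro j
    obtain ⟨σ, hσ⟩ := hperm j
    have hx := hS (σ.viaEmbedding e) u hu
    have hfun : (fun c => u (σ.viaEmbedding e c)) = fun c => F j (y c) := by
      funext c
      by_cases hc : c ∈ Set.range e
      · obtain ⟨i, rfl⟩ := hc
        rw [Equiv.Perm.viaEmbedding_apply, hye]
        have h1 : u (e (σ i)) = f i₀ (σ i) := hue (σ i)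
        rw [h1, ← hσ]
      · rw [Equiv.Perm.viaEmbedding_apply_of_notMem _ _ _ hc]
        have h1 : ¬ ∃ i, e i = c := fun h => hc h
        have h2 : y c = τ (u c) := by
          simp only [y]
          rw [dif_neg h1]
        rw [h2, hτ]
    rw [hfun] at hx
    exact hx
  let i₁ : I := ⟨q₀, ⟨0, Nat.pos_of_ne_zero hq₀⟩⟩
  have h3 := hA y hmem (e i₁)
  rw [hye i₁] at h3
  exact h3 (hsup q₀ hq₀).1

/-- `letters` for a set `C` of coordinates on which `A` is symmetric -/
theorem letters_on (i₀ : Fin k) (τ : X → Q) (hτ : ∀ i v, F i (τ v) = v) (V : Finset X)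
    (hV : Balanced F nt V) : ∃ K : ℕ, ∀ (n : ℕ)
    (A : Finset (Fin n → X)) (C : Finset (Fin n)), Free F nt A →
    (∀ i ∈ C, ∀ j ∈ C, ∀ x ∈ A, x ∘ swap i j ∈ A) → ∀ u ∈ A, ∃ v ∈ V,
      (C.filter (fun i => u i = v)).card < K := by
  classical
  obtain ⟨K, hK⟩ := letters i₀ τ hτ V hV
  refine ⟨K, fun n A C hA hC u hu => ?_⟩
  let e : C ≃ Fin C.card := C.equivFin
  let glue : (Fin C.card → X) → (Fin n → X) := fun w i => if h : i ∈ C then w (e ⟨i, h⟩) else u i
  let ext : (Fin C.card → Q) → (Fin n → Q) := fun w i =>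
    if h : i ∈ C then w (e ⟨i, h⟩) else τ (u i)
  let A' : Finset (Fin C.card → X) := univ.filter (fun w => glue w ∈ A)
  have hmem : ∀ w, w ∈ A' ↔ glue w ∈ A := fun w => by simp [A']
  have hfree : Free F nt A' := by
    intro y hy
    have h1 : ∀ c, ¬ nt (ext y c) := by
      refine hA (ext y) (fun i => ?_)
      have h2 := (hmem _).1 (hy i)
      have h3 : glue (fun c => F i (y c)) = fun c => F i (ext y c) := by
        funext c
        simp only [glue, ext]
        by_cases hc : c ∈ C
        · simp [hc]
        · simp [hc, hτ]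
      rwa [h3] at h2
    intro a
    have h2 := h1 (e.symm a)
    simp only [ext] at h2
    rw [dif_pos (e.symm a).2] at h2
    simpa using h2
  have hswap : ∀ a b : Fin C.card, ∀ w ∈ A', w ∘ swap a b ∈ A' := by
    intro a b w hw
    rw [hmem] at hw ⊢
    have h1 := hC _ (e.symm a).2 _ (e.symm b).2 _ hw
    have h2 : glue (w ∘ swap a b) = glue w ∘ swap (e.symm a : Fin n) (e.symm b) := by
      funext c
      by_cases hc : c ∈ C
      · obtain ⟨z, hz⟩ : ∃ z, (e.symm z : Fin n) = c := ⟨e ⟨c, hc⟩, by simp⟩
        subst hz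
        have h3 : swap (e.symm a : Fin n) (e.symm b) (e.symm z) = (e.symm (swap a b z) : Fin n) := by
          by_cases h4 : z = a
          · subst h4; rw [swap_apply_left, swap_apply_left]
          by_cases h5 : z = b
          · subst h5; rw [swap_apply_right, swap_apply_right]
          rw [swap_apply_of_ne_of_ne h4 h5, swap_apply_of_ne_of_ne]
          · intro h; exact h4 (e.symm.injective (Subtype.ext h))
          · intro h; exact h5 (e.symm.injective (Subtype.ext h))
        rw [Function.comp_apply, h3]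
        simp only [glue]
        rw [dif_pos (e.symm z).2, dif_pos (e.symm (swap a b z)).2]
        simp
      · have h3 : swap (e.symm a : Fin n) (e.symm b) c = c := by
          apply swap_apply_of_ne_of_ne
          · intro h; exact hc (h ▸ (e.symm a).2)
          · intro h; exact hc (h ▸ (e.symm b).2)
        rw [Function.comp_apply, h3]
        simp only [glue]
        rw [dif_neg hc, dif_neg hc]
    rw [h2]
    exact h1
  have hsym : Symm A' := by
    intro σ
    induction σ using Equiv.Perm.swap_induction_on with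
    | one => intro x hx; exact hx
    | swap_mul f a b _ ih =>
      intro x hx
      exact ih _ (hswap a b x hx)
  have hu' : (fun a => u (e.symm a)) ∈ A' := by
    rw [hmem]
    have : glue (fun a => u (e.symm a)) = u := by
      funext c
      simp only [glue]
      by_cases hc : c ∈ C
      · simp [hc]
      · simp [hc]
    rw [this]
    exact hu
  obtain ⟨v, hv, hlt⟩ := hK _ A' hfree hsym _ hu'
  refine ⟨v, hv, lt_of_eq_of_lt ?_ hlt⟩
  symm
  apply Finset.card_bij (fun a _ => (e.symm a : Fin n))
  · intro a ha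
    rw [Finset.mem_filter] at ha ⊢
    exact ⟨(e.symm a).2, ha.2⟩
  · intro a _ b _ hab
    exact e.symm.injective (Subtype.ext hab)
  · intro c hc
    rw [Finset.mem_filter] at hc
    refine ⟨e ⟨c, hc.1⟩, ?_, by simp⟩
    rw [Finset.mem_filter]
    exact ⟨mem_univ _, by simpa using hc.2⟩

/-- a common constant for all the balanced sets -/
theorem letters_all (i₀ : Fin k) (τ : X → Q) (hτ : ∀ i v, F i (τ v) = v) (h : ℕ)
    (hG : h ≤ Fintype.card X)
    (hmax : ∀ V : Finset X, ¬ Balanced F nt V → V.card ≤ h) : ∃ K : ℕ, ∀ (n : ℕ)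
    (A : Finset (Fin n → X)) (C : Finset (Fin n)), Free F nt A →
    (∀ i ∈ C, ∀ j ∈ C, ∀ x ∈ A, x ∘ swap i j ∈ A) → ∀ u ∈ A, ∃ V : Finset X, V.card = h ∧
      ∀ v, v ∉ V → (C.filter (fun i => u i = v)).card < K := by
  classical
  have hK : ∀ V : Finset X, ∃ K : ℕ, Balanced F nt V → ∀ (n : ℕ)
      (A : Finset (Fin n → X)) (C : Finset (Fin n)), Free F nt A →
      (∀ i ∈ C, ∀ j ∈ C, ∀ x ∈ A, x ∘ swap i j ∈ A) → ∀ u ∈ A, ∃ v ∈ V,
      (C.filter (fun i => u i = v)).card < K := by
    intro V
    by_cases hV : Balanced F nt V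
    · obtain ⟨K, hK⟩ := letters_on i₀ τ hτ V hV
      exact ⟨K, fun _ => hK⟩
    · exact ⟨0, fun h => absurd h hV⟩
  choose K₀ hK₀ using hK
  refine ⟨∑ V : Finset X, K₀ V, fun n A C hA hC u hu => ?_⟩
  set K := ∑ V : Finset X, K₀ V with hKdef
  set Vu : Finset X := univ.filter (fun v => K ≤ (C.filter (fun i => u i = v)).card) with hVu
  have hVuc : Vu.card ≤ h := by
    apply hmax
    intro hB
    obtain ⟨v, hv, hlt2⟩ := hK₀ Vu hB n A C hA hC u hu
    rw [hVu, Finset.mem_filter] at hv
    have h1 : K₀ Vu ≤ K := Finset.single_le_sum (f := K₀) (fun _ _ => Nat.zero_le _)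
      (Finset.mem_univ Vu)
    omega
  obtain ⟨V, hV1, hV2, hV3⟩ := Finset.exists_subsuperset_card_eq (Finset.subset_univ Vu) hVuc
    (by rw [Finset.card_univ]; omega)
  refine ⟨V, hV3, ?_⟩
  intro v hv
  by_contra hcon
  push Not at hcon
  exact hv (hV1 (by rw [hVu, Finset.mem_filter]; exact ⟨Finset.mem_univ _, hcon⟩))

/-- the lower bound: type classes over an unbalanced set -/
theorem lower (htriv : ∀ q, ¬ nt q → ∀ i j, F i q = F j q) (i₀ : Fin k)
    (S : Finset X) (hS : ¬ Balanced F nt S) (n : ℕ) :
    ∃ A : Finset (Fin n → X), Free F nt A ∧ Symm A ∧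
      S.card ^ n ≤ (n + 1) ^ Fintype.card X * A.card := by
  classical
  set W : Finset (Fin n → X) := Fintype.piFinset (fun _ => S) with hW
  let ty : (Fin n → X) → (X → Fin (n + 1)) := fun x s =>
    ⟨(univ.filter (fun i => x i = s)).card, by
      have h1 := Finset.card_le_univ (univ.filter (fun i => x i = s))
      rw [Fintype.card_fin] at h1
      omega⟩
  have hWcard : W.card = S.card ^ n := by
    rw [hW, Fintype.card_piFinset]
    simp
  obtain ⟨t, ht⟩ : ∃ t : X → Fin (n + 1),
      S.card ^ n ≤ (n + 1) ^ Fintype.card X * (W.filter (fun x => ty x = t)).card := by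
    by_contra hcon
    push Not at hcon
    have h1 : W.card = ∑ t : X → Fin (n + 1), (W.filter (fun x => ty x = t)).card :=
      Finset.card_eq_sum_card_fiberwise (fun x _ => by simp)
    have h2 : ∑ t : X → Fin (n + 1),
        ((n + 1) ^ Fintype.card X * (W.filter (fun x => ty x = t)).card) <
        ∑ _t : X → Fin (n + 1), S.card ^ n :=
      Finset.sum_lt_sum_of_nonempty Finset.univ_nonempty (fun t _ => hcon t)
    rw [← Finset.mul_sum, ← h1, hWcard, Finset.sum_const, Finset.card_univ, Fintype.card_fun,
      Fintype.card_fin, smul_eq_mul] at h2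
    exact lt_irrefl _ h2
  refine ⟨W.filter (fun x => ty x = t), ?_, ?_, ht⟩
  · intro y hy c₀ hc₀
    apply hS
    have hmemS : ∀ i, ∀ c, F i (y c) ∈ S := by
      intro i c
      have h1 := (Finset.mem_filter.1 (hy i)).1
      rw [hW, Fintype.mem_piFinset] at h1
      exact h1 c
    have hcount : ∀ i j, ∀ s : X,
        (univ.filter (fun c => F i (y c) = s)).card =
        (univ.filter (fun c => F j (y c) = s)).card := by
      intro i j s
      have h1 := (Finset.mem_filter.1 (hy i)).2
      have h0 := (Finset.mem_filter.1 (hy j)).2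
      have h2 : ty (fun c => F i (y c)) s = ty (fun c => F j (y c)) s := by rw [h1, h0]
      exact congrArg Fin.val h2
    refine ⟨fun q => (univ.filter (fun c => y c = q ∧ nt (y c))).card, ?_, ?_, ?_⟩
    · refine ⟨y c₀, ?_⟩
      rw [Finset.card_ne_zero]
      exact ⟨c₀, by simp [hc₀]⟩
    · intro q hq
      rw [Finset.card_ne_zero] at hq
      obtain ⟨c, hc⟩ := hq
      rw [Finset.mem_filter] at hc
      obtain ⟨_, h1, h2⟩ := hc
      refine ⟨h1 ▸ h2, ?_⟩
      intro i
      rw [← h1]
      exact hmemS i c
    · have key : ∀ (i : Fin k) (s : X), (∑ q : Q, if F i q = s then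
          (univ.filter (fun c => y c = q ∧ nt (y c))).card else 0) =
          (univ.filter (fun c => F i (y c) = s ∧ nt (y c))).card := by
        intro i s
        have h1 : (univ.filter (fun c => F i (y c) = s ∧ nt (y c))).card =
            ∑ q : Q, ((univ.filter (fun c => F i (y c) = s ∧ nt (y c))).filter
              (fun c => y c = q)).card :=
          Finset.card_eq_sum_card_fiberwise (fun c _ => by simp)
        rw [h1]
        apply Finset.sum_congr rfl
        intro q _
        rw [Finset.filter_filter]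
        split_ifs with hq
        · congr 1
          ext c
          simp only [Finset.mem_filter, Finset.mem_univ, true_and]
          constructor
          · rintro ⟨a1, a3⟩
            refine ⟨⟨?_, a3⟩, a1⟩
            rw [a1]
            exact hq
          · rintro ⟨⟨_, a3⟩, a2⟩
            exact ⟨a2, a3⟩
        · symm
          rw [Finset.card_eq_zero, Finset.filter_eq_empty_iff]
          rintro c _ ⟨⟨a1, a3⟩, a2⟩
          apply hq
          rw [← a2]
          exact a1
      intro i j s
      rw [key i s, key j s]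
      have key2 : ∀ i : Fin k,
          (univ.filter (fun c => F i (y c) = s ∧ nt (y c))).card +
          (univ.filter (fun c => F i₀ (y c) = s ∧ ¬ nt (y c))).card =
          (univ.filter (fun c => F i₀ (y c) = s)).card := by
        intro i
        have h1 := Finset.card_filter_add_card_filter_not
          (s := univ.filter (fun c => F i (y c) = s)) (fun c => nt (y c))
        rw [Finset.filter_filter, Finset.filter_filter, hcount i i₀ s] at h1
        rw [← h1]
        congr 2
        ext c
        simp only [Finset.mem_filter, Finset.mem_univ, true_and]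
        constructor
        · rintro ⟨a1, a2⟩
          exact ⟨by rw [htriv _ a2 i i₀]; exact a1, a2⟩
        · rintro ⟨a1, a2⟩
          exact ⟨by rw [htriv _ a2 i₀ i]; exact a1, a2⟩
      have h1 := key2 i
      have h2 := key2 j
      omega
  · intro σ x hx
    rw [Finset.mem_filter, hW, Fintype.mem_piFinset] at hx ⊢
    refine ⟨fun i => hx.1 (σ i), ?_⟩
    rw [← hx.2]
    funext s
    apply Fin.ext
    simp only [ty]
    apply Finset.card_bij (fun i _ => σ i)
    · intro i hi
      rw [Finset.mem_filter] at hi ⊢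
      exact ⟨Finset.mem_univ _, hi.2⟩
    · intro i _ j _ hij
      exact σ.injective hij
    · intro j hj
      rw [Finset.mem_filter] at hj
      refine ⟨σ.symm j, ?_, by simp⟩
      rw [Finset.mem_filter]
      refine ⟨Finset.mem_univ _, ?_⟩
      rw [Equiv.apply_symm_apply]
      exact hj.2

end Pool.Agent.TH197.Sym
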